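import Pool.Agent.R187.CT.Base
import Pool.Agent.H176.DT.G3
import Pool.Agent.Y547.DT6.Comb

/-!
# Projective models which are regular at the centre of a valuation
-/

set_option autoImplicit false
set_option linter.unusedVariables false
set_option linter.unusedSectionVars false

universe u

namespace Pool.Agent.R187.CT

open IsLocalRing Pool.Agent.W418.LU2 Pool.Agent.TH188.QS Pool.Agent.H176.DT

lemma mo_comp {K : Type u} [Field K] {s t : ℕ} {x : Fin s → K} (hx : ∀ i, x i ≠ 0)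
    {x' : Fin t → K} {δ : Fin t → Fin s → ℤ} (h : ∀ j, x' j = mo x (δ j)) (e : Fin t → ℤ) :
    mo x' e = mo x (∑ j, e j • δ j) := by
  rw [Pool.Agent.Y547.DT6.mo_sm hx]
  unfold mo
  refine Finset.prod_congr rfl fun j _ => ?_
  rw [h j]
  exact (Pool.Agent.Y547.DT6.mo_zs x (e j) (δ j)).symm

lemma mo_inj {K : Type u} [Field K] {V : ValuationSubring K} {s : ℕ} {x : Fin s → K}
    (hx : ∀ i, x i ≠ 0) (hind : ∀ δ : Fin s → ℤ, V.valuation (mo x δ) = 1 → δ = 0)
    {α β : Fin s → ℤ} (h : mo x α = mo x β) : α = β := by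
  have h1 : mo x (α + -β) = 1 := by
    rw [mo_add hx, mo_neg, h, mul_inv_cancel₀ (mo_ne_zero hx β)]
  have h2 := hind (α + -β) (by rw [h1, map_one])
  exact add_neg_eq_zero.1 h2

/-- Stages in which all parameters divide a power of `p`. -/
theorem vertical_stage {K : Type u} [Field K] (V : ValuationSubring K) (A : Subring K)
    (hSU : SU V A) (p : K) (hp0 : p ≠ 0) (hpV : p ∈ V) (htop : ∀ a : K, ∃ n : ℕ, p ^ n * a ∈ V) :
    ∃ (T : Set K) (s : ℕ) (x : Fin s → K) (u : K) (η : Fin s → ℤ), St V A T x ∧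
      (∀ i, (x i)⁻¹ ∉ V) ∧ u ∈ PP V A T ∧ u⁻¹ ∈ PP V A T ∧ u ≠ 0 ∧ p = u * mo x η ∧
      ∀ i, 0 < η i := by
  classical
  obtain ⟨T, s, x, hSt, hxV, hind, hmon⟩ := p_ind V A hSU {p} (Set.finite_singleton p)
    (by rintro g rfl; exact hp0)
  have hx0 := hSt.reg.ne
  obtain ⟨k, hk⟩ : ∃ k : ℕ, ∀ i, p ^ k * (x i)⁻¹ ∈ V := by
    choose n hn using fun i => htop (x i)⁻¹
    refine ⟨∑ i, n i, fun i => ?_⟩
    have h1 : ∑ j, n j = (∑ j ∈ Finset.univ.erase i, n j) + n i :=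
      (Finset.sum_erase_add _ _ (Finset.mem_univ i)).symm
    rw [h1, pow_add, mul_assoc]
    exact V.mul_mem _ _ (pow_mem hpV _) (hn i)
  have hpm : PMon (PP V A T) x p := (hmon p rfl).1
  obtain ⟨T', x', hTT', hSt', hRef, hδ, hP, hG⟩ := p_ref V A T x hSt
    (Set.range fun i => p ^ k * (x i)⁻¹) (Set.finite_range _) (by
      rintro _ ⟨i, rfl⟩
      exact PMon.mul hx0 (Pool.Agent.TH188.QS.PMon.pow hx0 hpm k)
        (Pool.Agent.TH188.QS.PMon.self i).inv)
  choose δ hδ using hδ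
  have hRef' : ∀ i, ∃ a : Fin s → ℤ, 0 ≤ a ∧ x i = mo x' a := by
    intro i
    obtain ⟨a, ha, h⟩ := hRef (Pi.single i 1) (Pi.single_nonneg.2 zero_le_one)
    exact ⟨a, ha, by rw [← h, mo_single]⟩
  choose a ha0 ha using hRef'
  have hx'0 := hSt'.reg.ne
  let MA : Matrix (Fin s) (Fin s) ℤ := Matrix.of a
  let MD : Matrix (Fin s) (Fin s) ℤ := Matrix.of δ
  have h1 : MA * MD = 1 := by
    ext i l
    have h2 : ∑ j, a i j • δ j = Pi.single i 1 := by
      refine mo_inj hx0 hind ?_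
      rw [← mo_comp hx0 hδ, ← ha i, mo_single]
    have h3 := congrFun h2 l
    rw [Finset.sum_apply] at h3
    simp only [Pi.smul_apply, smul_eq_mul] at h3
    change ∑ j, a i j * δ j l = _
    rw [h3, Matrix.one_apply, Pi.single_apply]
    simp only [eq_comm]
  have h2 : MD * MA = 1 := mul_eq_one_comm.1 h1
  have hind' : ∀ e : Fin s → ℤ, V.valuation (mo x' e) = 1 → e = 0 := by
    intro e he
    rw [mo_comp hx0 hδ] at he
    have h3 := hind _ he
    have h4 : Matrix.vecMul e MD = 0 := by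
      funext l
      have h5 := congrFun h3 l
      rw [Finset.sum_apply] at h5
      simp only [Pi.smul_apply, smul_eq_mul] at h5
      exact h5
    have h5 : Matrix.vecMul (Matrix.vecMul e MD) MA = e := by
      rw [Matrix.vecMul_vecMul, h2, Matrix.vecMul_one]
    rw [← h5, h4, Matrix.zero_vecMul]
  have hxV' : ∀ i, (x' i)⁻¹ ∉ V := by
    intro i hi
    have h3 : V.valuation (x' i) = 1 :=
      (val_one_iff _ _).2 ⟨hx'0 i, hSt'.reg.PA (hSt'.reg.mem i), hi⟩
    have h4 := hind' (Pi.single i 1) (by rw [mo_single]; exact h3)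
    have h5 := congrFun h4 i
    rw [Pi.single_eq_same] at h5
    exact one_ne_zero h5
  obtain ⟨u, u0, u1, u2, η, hη⟩ := hP p hpm
  refine ⟨T', s, x', u, η, hSt', hxV', u1, u2, u0, hη, fun j => ?_⟩
  have h3 : ∀ i, a i j ≤ k * η j := by
    intro i
    have h4 := hG _ ⟨i, rfl⟩ (hk i)
    have h5 : mo x' ((k : ℤ) • η + -a i) = (u⁻¹) ^ k * (p ^ k * (x i)⁻¹) := by
      rw [mo_add hx'0, mo_neg, Pool.Agent.Y547.DT6.mo_zs, ← ha i, zpow_natCast, hη, mul_pow,
        ← mul_assoc, ← mul_assoc, ← mul_pow, inv_mul_cancel₀ u0, one_pow, one_mul]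
    have h6 : mo x' ((k : ℤ) • η + -a i) ∈ PP V A T' := by
      rw [h5]
      exact Subring.mul_mem _ (Subring.pow_mem _ u2 _) h4
    have h7 := p_expo hSt'.reg _ h6 j (hxV' j)
    simp only [Pi.add_apply, Pi.smul_apply, Pi.neg_apply, smul_eq_mul] at h7
    omega
  obtain ⟨i, hi⟩ : ∃ i, a i j ≠ 0 := by
    by_contra hcon
    push Not at hcon
    have h4 := congrFun (congrFun h2 j) j
    rw [Matrix.mul_apply, Matrix.one_apply_eq] at h4
    rw [Finset.sum_eq_zero] at h4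
    · exact zero_ne_one h4
    · intro i _
      change δ j i * a i j = 0
      rw [hcon i, mul_zero]
  have h4 : 0 < a i j := lt_of_le_of_ne (ha0 i j) hi.symm
  have h5 := h3 i
  by_contra hcon
  push Not at hcon
  have h6 : (k : ℤ) * η j ≤ 0 := mul_nonpos_of_nonneg_of_nonpos (Int.natCast_nonneg k) hcon
  omega

/-- `P` is a regular local ring, and `p` is a unit times a product of powers of elements of a regular
system of parameters. -/
def NC {K : Type u} [Field K] (P : Subring K) (p : K) : Prop :=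
  ∃ (_ : IsRegularLocalRing P) (n : ℕ) (x : Fin n → P) (e : Fin n → ℕ) (c : Pˣ),
    Ideal.span (Set.range x) = IsLocalRing.maximalIdeal P ∧ ringKrullDim P = n ∧
      p = ((c : P) : K) * ∏ i, (x i : K) ^ e i

theorem nc_of_stage {K : Type u} [Field K] (V : ValuationSubring K) {A : Subring K} {T : Set K}
    {s : ℕ} {x : Fin s → K} (hSt : St V A T x) (hxV : ∀ i, (x i)⁻¹ ∉ V) {p u : K}
    {η : Fin s → ℤ} (hu1 : u ∈ PP V A T) (hu2 : u⁻¹ ∈ PP V A T) (hu0 : u ≠ 0)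
    (hp : p = u * mo x η) (hη : ∀ i, 0 < η i) : NC (PP V A T) p := by
  classical
  obtain ⟨k, z, hF⟩ := p_ext hSt.reg hxV
  obtain ⟨hPA, hmem, hR, hinv, hspan, hdim⟩ := hF
  let e := Fintype.equivFin (Fin s ⊕ Fin k)
  let η' : Fin s ⊕ Fin k → ℕ := Sum.elim (fun i => (η i).toNat) fun _ => 0
  refine ⟨hR, Fintype.card (Fin s ⊕ Fin k), fun i => ⟨_, hmem (e.symm i)⟩,
    fun i => η' (e.symm i), ⟨⟨u, hu1⟩, ⟨u⁻¹, hu2⟩, Subtype.ext (mul_inv_cancel₀ hu0),
      Subtype.ext (inv_mul_cancel₀ hu0)⟩, ?_, hdim, ?_⟩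
  · rw [← hspan]
    congr 1
    ext w
    constructor
    · rintro ⟨i, rfl⟩
      exact ⟨_, rfl⟩
    · rintro ⟨i, rfl⟩
      exact ⟨e i, by simp⟩
  · change p = u * ∏ i, (Sum.elim x z (e.symm i)) ^ η' (e.symm i)
    rw [e.symm.prod_comp (fun i => (Sum.elim x z i) ^ η' i), Fintype.prod_sum_type, hp]
    congr 1
    have h1 : ∏ i : Fin k, (Sum.elim x z (Sum.inr i)) ^ η' (Sum.inr i) = 1 :=
      Finset.prod_eq_one fun i _ => pow_zero _
    rw [h1, mul_one]
    unfold mo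
    refine Finset.prod_congr rfl fun i _ => ?_
    change x i ^ η i = x i ^ (η i).toNat
    rw [← zpow_natCast, Int.toNat_of_nonneg (hη i).le]

/-- Projective models which are regular at the centre of a valuation. -/
theorem model_at {K : Type u} [Field K] (V : ValuationSubring K) (O : Subring K)
    (hO : ∀ a ∈ O, a ∈ V) {W : Set K} (hWf : W.Finite) {w : K} (hw : w ∈ W) (hw0 : w ≠ 0)
    (hwV : ∀ v ∈ W, v / w ∈ V) (hSU : SU V (ch O W w)) {p : K} (hpO : p ∈ O) (hp0 : p ≠ 0)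
    (htop : ∀ a : K, ∃ n : ℕ, p ^ n * a ∈ V) :
    ∃ (Y : Set K) (d n : ℕ), Y.Finite ∧
      Y ⊆ ((Submodule.span O W) ^ d : Submodule O K) ∧
      (∀ z ∈ (Submodule.span O W) ^ d, p ^ n * z ∈ Submodule.span O Y) ∧
      ∃ w' ∈ bu W Y, w' ≠ 0 ∧ (∀ v ∈ bu W Y, v / w' ∈ V) ∧
        NC (lo V.toSubring (ch O (bu W Y) w')) p := by
  obtain ⟨T, s, x, u, η, hSt, hxV, hu1, hu2, hu0, hp, hη⟩ :=
    vertical_stage V (ch O W w) hSU p hp0 (hO p hpO) htop
  obtain ⟨Y, d, n, h1, h2, h3, w', h4, h5, h6, h7⟩ :=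
    model_stage V O hO hWf hw hw0 hwV hpO hSt hu1 hu2 hu0 hp hη
  refine ⟨Y, d, n, h1, h2, h3, w', h4, h5, h6, ?_⟩
  rw [h7]
  exact nc_of_stage V hSt hxV hu1 hu2 hu0 hp hη

end Pool.Agent.R187.CT
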