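import Pool.Agent.R187.CT.Mdl

/-!
# Projective models which are regular at the centres of valuations over different primes
-/

set_option autoImplicit false
set_option linter.unusedVariables false
set_option linter.unusedSectionVars false

universe u

open scoped Pointwise

namespace Pool.Agent.R187.CT

open IsLocalRing Pool.Agent.W418.LU2 Pool.Agent.TH188.QS Pool.Agent.H176.DT

variable {K : Type u} [Field K]

lemma pow_lift {O : Subring K} {M M' : Submodule O K} {c : K} (h : ∀ x ∈ M, c * x ∈ M') (k : ℕ) :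
    ∀ x ∈ M ^ k, c ^ k * x ∈ M' ^ k := by
  induction k with
  | zero =>
    intro x hx
    rw [pow_zero] at hx
    rw [pow_zero c, one_mul, pow_zero]
    exact hx
  | succ k ih =>
    intro x hx
    rw [pow_succ] at hx
    rw [pow_succ M']
    refine Submodule.mul_induction_on hx (fun a ha b hb => ?_) (fun a b ha hb => ?_)
    · have h1 : c ^ (k + 1) * (a * b) = (c ^ k * a) * (c * b) := by ring
      rw [h1]
      exact Submodule.mul_mem_mul (ih a ha) (h b hb)
    · rw [mul_add]
      exact add_mem ha hb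

lemma bu_eq (W Y : Set K) : bu W Y = Y * W := by
  ext z
  constructor
  · rintro ⟨y, hy, v, hv, rfl⟩
    exact Set.mul_mem_mul hy hv
  · rintro ⟨y, hy, v, hv, rfl⟩
    exact ⟨y, hy, v, hv, rfl⟩

lemma span_bu (O : Subring K) (W Y : Set K) :
    Submodule.span O (bu W Y) = Submodule.span O Y * Submodule.span O W := by
  rw [bu_eq, Submodule.span_mul_span]

lemma bu_bu (W Y Z : Set K) : bu (bu W Y) Z = bu W (bu Y Z) := by
  rw [bu_eq, bu_eq, bu_eq, bu_eq, mul_assoc]

lemma smul_O {O : Subring K} {M : Submodule O K} {c z : K} (hc : c ∈ O) (hz : z ∈ M) :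
    c * z ∈ M := M.smul_mem (⟨c, hc⟩ : O) hz

/-- Vertical centres over `N`. -/
def Vc (O : Subring K) (N : K) (W Y : Set K) : Prop :=
  Y.Finite ∧ ∃ d n : ℕ, Y ⊆ ((Submodule.span O W) ^ d : Submodule O K) ∧
    ∀ z ∈ (Submodule.span O W) ^ d, N ^ n * z ∈ Submodule.span O Y

theorem Vc.comp {O : Subring K} {N q : K} (hN : N ∈ O) (hq : q ∈ O) {W Y₁ Y₂ : Set K}
    (h1 : Vc O N W Y₁) (h2 : Vc O q (bu W Y₁) Y₂) : Vc O (q * N) W (bu Y₁ Y₂) := by
  obtain ⟨f1, d1, n1, a1, b1⟩ := h1
  obtain ⟨f2, d2, n2, a2, b2⟩ := h2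
  rw [span_bu] at a2 b2
  set A := Submodule.span O W with hA
  set B1 := Submodule.span O Y₁ with hB1
  have hB1A : B1 ≤ A ^ d1 := Submodule.span_le.2 a1
  refine ⟨?_, (d1 + 1) * d2 + d1, n1 * d2 + n1 + n2, ?_, ?_⟩
  · rw [bu_eq]
    exact f2.mul f1
  · rintro _ ⟨y2, hy2, y1, hy1, rfl⟩
    change y2 * y1 ∈ A ^ ((d1 + 1) * d2 + d1)
    rw [pow_add, pow_mul]
    refine Submodule.mul_mem_mul ?_ (a1 hy1)
    have h3 : (B1 * A) ^ d2 ≤ (A ^ (d1 + 1)) ^ d2 := by
      refine pow_le_pow_left' ?_ d2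
      rw [pow_succ]
      exact mul_le_mul' hB1A le_rfl
    exact h3 (a2 hy2)
  · intro z hz
    rw [pow_add, pow_mul] at hz
    rw [span_bu]
    have h3 : ∀ x ∈ A ^ (d1 + 1), N ^ n1 * x ∈ B1 * A := by
      intro x hx
      rw [pow_succ] at hx
      refine Submodule.mul_induction_on hx (fun a ha b hb => ?_) (fun a b ha hb => ?_)
      · rw [← mul_assoc]
        exact Submodule.mul_mem_mul (b1 a ha) hb
      · rw [mul_add]
        exact add_mem ha hb
    refine Submodule.mul_induction_on hz (fun a ha b hb => ?_) (fun a b ha hb => ?_)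
    · have h4 := b2 _ (pow_lift h3 d2 a ha)
      have h5 := Submodule.mul_mem_mul h4 (b1 b hb)
      have h6 : (q * N) ^ (n1 * d2 + n1 + n2) * (a * b) =
          (N ^ n2 * q ^ (n1 * d2 + n1)) * (q ^ n2 * ((N ^ n1) ^ d2 * a) * (N ^ n1 * b)) := by
        ring
      rw [h6]
      exact smul_O (O.mul_mem (O.pow_mem hN _) (O.pow_mem hq _)) h5
    · rw [mul_add]
      exact add_mem ha hb

/-- Regularity at the centre. -/
def Rc (V : ValuationSubring K) (O : Subring K) (W : Set K) (p : K) : Prop :=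
  ∃ w ∈ W, w ≠ 0 ∧ (∀ v ∈ W, v / w ∈ V) ∧ NC (lo V.toSubring (ch O W w)) p

/-- The function field is `K`. -/
def FF (O : Subring K) (W : Set K) : Prop :=
  W.Finite ∧ ∃ w ∈ W, w ≠ 0 ∧ ∀ z, Fr (ch O W w) z

lemma ch_le {O : Subring K} {W Y : Set K} {w y : K} (hw0 : w ≠ 0) (hy : y ∈ Y) (hy0 : y ≠ 0) :
    ch O W w ≤ ch O (bu W Y) (y * w) := by
  rw [Subring.closure_le]
  rintro z (hz | ⟨v, hv, rfl⟩)
  · exact Subring.subset_closure (Or.inl hz)
  · refine Subring.subset_closure (Or.inr ⟨y * v, ⟨y, hy, v, hv, rfl⟩, ?_⟩)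
    rw [mul_div_mul_left _ _ hy0]

lemma Vc.exists_ne {O : Subring K} {N : K} (hN0 : N ≠ 0) {W Y : Set K} (h : Vc O N W Y) {w : K}
    (hw : w ∈ W) (hw0 : w ≠ 0) : ∃ y ∈ Y, y ≠ 0 := by
  obtain ⟨-, d, n, -, h2⟩ := h
  by_contra hcon
  push Not at hcon
  have h3 := h2 (w ^ d) (Submodule.pow_mem_pow _ (Submodule.subset_span hw) d)
  have h4 : Submodule.span O Y ≤ ⊥ := Submodule.span_le.2 fun y hy => by
    rw [hcon y hy]
    exact Submodule.zero_mem _
  have h5 := h4 h3
  rw [Submodule.mem_bot] at h5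
  exact mul_ne_zero (pow_ne_zero _ hN0) (pow_ne_zero _ hw0) h5

lemma FF.bu {O : Subring K} {N : K} (hN0 : N ≠ 0) {W Y : Set K} (hW : FF O W)
    (h : Vc O N W Y) : FF O (bu W Y) := by
  obtain ⟨hWf, w, hw, hw0, hfr⟩ := hW
  obtain ⟨y, hy, hy0⟩ := h.exists_ne hN0 hw hw0
  refine ⟨by rw [bu_eq]; exact h.1.mul hWf, y * w, ⟨y, hy, w, hw, rfl⟩, mul_ne_zero hy0 hw0,
    fun z => fr_mono (ch_le hw0 hy hy0) (hfr z)⟩

lemma div_pow_mem {O : Subring K} {W : Set K} {w : K} (hw0 : w ≠ 0) (d : ℕ) :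
    ∀ z ∈ (Submodule.span O W) ^ d, z / w ^ d ∈ ch O W w := by
  have h1 : ∀ z ∈ Submodule.span O W, z / w ∈ ch O W w := by
    intro z hz
    induction hz using Submodule.span_induction with
    | mem x hx => exact Subring.subset_closure (Or.inr ⟨x, hx, rfl⟩)
    | zero => rw [zero_div]; exact Subring.zero_mem _
    | add x y _ _ hx hy => rw [add_div]; exact Subring.add_mem _ hx hy
    | smul a x _ hx =>
      have h2 : (a • x) / w = (a : K) * (x / w) := mul_div_assoc _ _ _
      rw [h2]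
      exact Subring.mul_mem _ (Subring.subset_closure (Or.inl a.2)) hx
  induction d with
  | zero =>
    intro z hz
    rw [pow_zero, Submodule.mem_one] at hz
    obtain ⟨a, rfl⟩ := hz
    rw [pow_zero, div_one]
    exact Subring.subset_closure (Or.inl a.2)
  | succ d ih =>
    intro z hz
    rw [pow_succ] at hz
    refine Submodule.mul_induction_on hz (fun a ha b hb => ?_) (fun a b ha hb => ?_)
    · rw [pow_succ, mul_div_mul_comm]
      exact Subring.mul_mem _ (ih a ha) (h1 b hb)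
    · rw [add_div]
      exact Subring.add_mem _ ha hb

/-- Blowing-ups over other primes do not change the local ring at the centre. -/
theorem Rc.bu {V : ValuationSubring K} {O : Subring K} (hO : ∀ a ∈ O, a ∈ V) {W Y : Set K}
    {p q : K} (hq0 : q ≠ 0) (hqV : q⁻¹ ∈ V) (h : Vc O q W Y) (hR : Rc V O W p) :
    Rc V O (bu W Y) p := by
  obtain ⟨w, hw, hw0, hwV, hNC⟩ := hR
  obtain ⟨y₁, hy₁, hy₁0⟩ := h.exists_ne hq0 hw hw0
  obtain ⟨hYf, d, n, h1, h2⟩ := h
  obtain ⟨y, hy, hym⟩ := Set.exists_max_image Y V.valuation hYf ⟨y₁, hy₁⟩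
  have hy0 : y ≠ 0 := by
    rintro rfl
    have h3 := hym y₁ hy₁
    rw [map_zero, le_zero_iff, map_eq_zero] at h3
    exact hy₁0 h3
  have hyV : ∀ z ∈ Y, z / y ∈ V := by
    intro z hz
    rw [← V.valuation_le_one_iff, map_div₀]
    exact (div_le_one₀ (zero_lt_iff.2 ((map_ne_zero _).2 hy0))).2 (hym z hz)
  have hAV : ch O W w ≤ V.toSubring := by
    rw [Subring.closure_le]
    rintro z (hz | ⟨v, hv, rfl⟩)
    · exact hO z hz
    · exact hwV v hv
  have hspan : ∀ z ∈ Submodule.span O Y, z / y ∈ V := by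
    intro z hz
    induction hz using Submodule.span_induction with
    | mem x hx => exact hyV x hx
    | zero => rw [zero_div]; exact V.zero_mem
    | add a b _ _ ha hb => rw [add_div]; exact V.add_mem _ _ ha hb
    | smul a x _ hx =>
      have h3 : (a • x) / y = (a : K) * (x / y) := mul_div_assoc _ _ _
      rw [h3]
      exact V.mul_mem _ _ (hO a a.2) hx
  have hunit : (y / w ^ d)⁻¹ ∈ V := by
    have h3 := hspan _ (h2 (w ^ d) (Submodule.pow_mem_pow _ (Submodule.subset_span hw) d))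
    have h4 : (y / w ^ d)⁻¹ = (q⁻¹) ^ n * (q ^ n * w ^ d / y) := by
      rw [inv_div, inv_pow]
      field_simp
    rw [h4]
    exact V.mul_mem _ _ (pow_mem hqV n) h3
  have hyw0 : y / w ^ d ≠ 0 := div_ne_zero hy0 (pow_ne_zero _ hw0)
  refine ⟨y * w, ⟨y, hy, w, hw, rfl⟩, mul_ne_zero hy0 hw0, ?_, ?_⟩
  · rintro _ ⟨z, hz, v, hv, rfl⟩
    rw [mul_div_mul_comm]
    exact V.mul_mem _ _ (hyV z hz) (hwV v hv)
  · have h3 : lo V.toSubring (ch O (Pool.Agent.H176.DT.bu W Y) (y * w)) =
        lo V.toSubring (ch O W w) := by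
      apply le_antisymm
      · refine lo_le_lo hAV ?_
        rw [Subring.closure_le]
        rintro z (hz | ⟨_, ⟨x, hx, v, hv, rfl⟩, rfl⟩)
        · exact le_lo _ _ (Subring.subset_closure (Or.inl hz))
        · rw [mul_div_mul_comm]
          refine Subring.mul_mem _ ?_ (le_lo _ _ (Subring.subset_closure (Or.inr ⟨v, hv, rfl⟩)))
          refine ⟨x / w ^ d, div_pow_mem hw0 d x (h1 hx), y / w ^ d,
            div_pow_mem hw0 d y (h1 hy), hyw0, hunit, ?_⟩
          have hwd : w ^ d ≠ 0 := pow_ne_zero _ hw0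
          field_simp
      · exact lo_mono (ch_le hw0 hy hy0)
    rw [h3]
    exact hNC

/-- Several primes. -/
theorem multi (O : Subring K) (S : Finset ℕ) (hS : ∀ p ∈ S, p.Prime) [CharZero K]
    (V : ℕ → ValuationSubring K) (hO : ∀ p ∈ S, ∀ a ∈ O, a ∈ V p)
    (hV : ∀ p ∈ S, (V p).valuation (p : K) < 1)
    (hone : ∀ p ∈ S, ∀ W : Set K, FF O W → ∃ Y, Vc O (p : K) W Y ∧ Rc (V p) O (bu W Y) (p : K))
    (W : Set K) (hW : FF O W) :
    ∃ Y : Set K, Vc O ((∏ p ∈ S, p : ℕ) : K) W Y ∧ ∀ p ∈ S, Rc (V p) O (bu W Y) (p : K) := by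
  classical
  induction S using Finset.induction_on with
  | empty =>
    refine ⟨{1}, ⟨Set.finite_singleton _, 0, 0, ?_, ?_⟩, fun p hp => absurd hp (Finset.notMem_empty p)⟩
    · rintro _ rfl
      rw [pow_zero]
      exact Submodule.one_le.1 le_rfl
    · intro z hz
      rw [pow_zero, Submodule.one_eq_span] at hz
      rw [pow_zero, one_mul]
      exact hz
  | insert q S hq ih =>
    obtain ⟨Y₁, hY₁, hR₁⟩ := ih (fun p hp => hS p (Finset.mem_insert_of_mem hp))
      (fun p hp => hO p (Finset.mem_insert_of_mem hp))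
      (fun p hp => hV p (Finset.mem_insert_of_mem hp))
      (fun p hp => hone p (Finset.mem_insert_of_mem hp))
    have hN0 : ((∏ p ∈ S, p : ℕ) : K) ≠ 0 := by
      rw [Nat.cast_ne_zero]
      exact Finset.prod_ne_zero_iff.2 fun p hp => (hS p (Finset.mem_insert_of_mem hp)).ne_zero
    have hqS : q ∈ insert q S := Finset.mem_insert_self _ _
    have hq0 : (q : K) ≠ 0 := Nat.cast_ne_zero.2 (hS q hqS).ne_zero
    obtain ⟨Y₂, hY₂, hR₂⟩ := hone q hqS (bu W Y₁) (hW.bu hN0 hY₁)
    refine ⟨bu Y₁ Y₂, ?_, ?_⟩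
    · rw [Finset.prod_insert hq, Nat.cast_mul]
      exact hY₁.comp (natCast_mem O _) (natCast_mem O _) hY₂
    · intro p hp
      rw [← bu_bu]
      rcases Finset.mem_insert.1 hp with rfl | hpS
      · exact hR₂
      · refine Rc.bu (hO p hp) hq0 ?_ hY₂ (hR₁ p hpS)
        -- `q` is a unit at `p`
        have hne : p ≠ q := by
          rintro rfl
          exact hq hpS
        have hcop : Nat.Coprime p q := (Nat.coprime_primes (hS p hp) (hS q hqS)).2 hne
        have h1 : (Nat.gcdA p q : ℤ) * p + (Nat.gcdB p q : ℤ) * q = 1 := by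
          have h2 := Nat.gcd_eq_gcd_ab p q
          rw [hcop.gcd_eq_one] at h2
          push_cast at h2
          linarith
        by_contra hcon
        have hqm : (V p).valuation (q : K) < 1 := by
          rcases (V p).mem_or_inv_mem (q : K) with h3 | h3
          · refine lt_of_le_of_ne (((V p).valuation_le_one_iff _).2 h3) fun h4 => hcon ?_
            rw [← (V p).valuation_le_one_iff, map_inv₀, h4, inv_one]
          · exact absurd h3 hcon
        have h2 : ((Nat.gcdA p q : ℤ) : K) * (p : K) + ((Nat.gcdB p q : ℤ) : K) * (q : K) = 1 := by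
          exact_mod_cast congrArg (Int.cast (R := K)) h1
        have h3 : (V p).valuation (1 : K) < 1 := by
          rw [← h2]
          have h5 : ∀ (a : ℤ) (x : K), (V p).valuation x < 1 →
              (V p).valuation ((a : K) * x) < 1 := by
            intro a x hx
            rw [map_mul]
            calc (V p).valuation (a : K) * (V p).valuation x
                ≤ 1 * (V p).valuation x :=
                  mul_le_mul' (((V p).valuation_le_one_iff _).2 (intCast_mem _ _)) le_rfl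
              _ < 1 := by rw [one_mul]; exact hx
          exact lt_of_le_of_lt ((V p).valuation.map_add _ _)
            (max_lt (h5 _ _ (hV p hp)) (h5 _ _ hqm))
        rw [map_one] at h3
        exact lt_irrefl _ h3

end Pool.Agent.R187.CT
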